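import Pool.Agent.H51.MFL.S

/-!
# Board mfl, DGS: the degree function of the enveloping algebra
-/

set_option autoImplicit false

open Module MvPolynomial

namespace Pool.MFL

namespace DGSaux

variable {κ L : Type} [Field κ] [LieRing L] [LieAlgebra κ L] {n : ℕ}

/-- The filtration. -/
def Fd (b : Basis (Fin n) κ L) (d : ℤ) : AddSubgroup (UniversalEnvelopingAlgebra κ L) where
  carrier := {u | ∃ f : MvPolynomial (Fin n) κ, pm b f = u ∧ (f = 0 ∨ (f.totalDegree : ℤ) ≤ d)}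
  add_mem' := by
    rintro u v ⟨f, hf, hf'⟩ ⟨g, hg, hg'⟩
    refine ⟨f + g, by rw [map_add, hf, hg], ?_⟩
    rcases hf' with hf' | hf'
    · rw [hf', zero_add]
      exact hg'
    · rcases hg' with hg' | hg'
      · rw [hg', add_zero]
        exact Or.inr hf'
      · right
        have h := totalDegree_add f g
        have h2 : ((f + g).totalDegree : ℤ) ≤ max (f.totalDegree : ℤ) (g.totalDegree : ℤ) := by
          exact_mod_cast h
        exact h2.trans (max_le hf' hg')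
  zero_mem' := ⟨0, map_zero _, Or.inl rfl⟩
  neg_mem' := by
    rintro u ⟨f, hf, hf'⟩
    refine ⟨-f, by rw [map_neg, hf], ?_⟩
    rcases hf' with hf' | hf'
    · exact Or.inl (by rw [hf', neg_zero])
    · right
      rw [totalDegree_neg]
      exact hf'

theorem Fd_mono (b : Basis (Fin n) κ L) (c d : ℤ) (h : c ≤ d) : Fd b c ≤ Fd b d := by
  rintro u ⟨f, hf, hf'⟩
  exact ⟨f, hf, hf'.imp id fun h' => h'.trans h⟩

theorem Fd_mul (hPRD : PRDStmt) (b : Basis (Fin n) κ L) (c d : ℤ)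
    (u v : UniversalEnvelopingAlgebra κ L) (hu : u ∈ Fd b c) (hv : v ∈ Fd b d) :
    u * v ∈ Fd b (c + d) := by
  obtain ⟨f, hf, hf'⟩ := hu
  obtain ⟨g, hg, hg'⟩ := hv
  rcases hf' with hf' | hf'
  · refine ⟨0, ?_, Or.inl rfl⟩
    rw [← hf, hf', map_zero, zero_mul]
  rcases hg' with hg' | hg'
  · refine ⟨0, ?_, Or.inl rfl⟩
    rw [← hg, hg', map_zero, mul_zero]
  obtain ⟨h, h1, h2⟩ := hPRD κ L n b f g _ _ le_rfl le_rfl
  refine ⟨f * g + h, by rw [← h2, hf, hg], Or.inr ?_⟩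
  have h3 : (f * g + h).totalDegree ≤ f.totalDegree + g.totalDegree := by
    refine (totalDegree_add _ _).trans (max_le (totalDegree_mul _ _) ?_)
    rcases h1 with h1 | h1
    · rw [h1, totalDegree_zero]
      exact Nat.zero_le _
    · exact h1.le
  have h4 : ((f * g + h).totalDegree : ℤ) ≤ f.totalDegree + g.totalDegree := by exact_mod_cast h3
  linarith

theorem pm_one (b : Basis (Fin n) κ L) : pm b 1 = 1 := by
  have h : (1 : MvPolynomial (Fin n) κ) = basisMonomials (Fin n) κ 0 := by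
    rw [coe_basisMonomials]
    rfl
  rw [h, pm, Basis.constr_basis]
  exact Pool.MFQ.Ord.mo_zero _

theorem Fd_one (b : Basis (Fin n) κ L) : (1 : UniversalEnvelopingAlgebra κ L) ∈ Fd b 0 :=
  ⟨1, pm_one b, Or.inr (by rw [totalDegree_one]; exact le_rfl)⟩

theorem Fd_iff (hPBR : PBRStmt) (b : Basis (Fin n) κ L) (d : ℤ) (f : MvPolynomial (Fin n) κ) :
    pm b f ∈ Fd b d ↔ f = 0 ∨ (f.totalDegree : ℤ) ≤ d := by
  constructor
  · rintro ⟨g, hg, hg'⟩
    rw [(hPBR κ L n b).1 hg] at hg'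
    exact hg'
  · intro h
    exact ⟨f, rfl, h⟩

theorem Fd_str (hPBR : PBRStmt) (hPRD : PRDStmt) (b : Basis (Fin n) κ L) (c d : ℤ)
    (u v : UniversalEnvelopingAlgebra κ L) (hu : u ∉ Fd b c) (hv : v ∉ Fd b d) :
    u * v ∉ Fd b (c + d + 1) := by
  obtain ⟨f, rfl⟩ := (hPBR κ L n b).2 u
  obtain ⟨g, rfl⟩ := (hPBR κ L n b).2 v
  rw [Fd_iff hPBR, not_or, not_le] at hu hv
  obtain ⟨h, h1, h2⟩ := hPRD κ L n b f g _ _ le_rfl le_rfl
  rw [h2, Fd_iff hPBR, not_or, not_le]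
  have h3 : (f * g).totalDegree = f.totalDegree + g.totalDegree :=
    totalDegree_mul_of_isDomain hu.1 hv.1
  have h4 : f * g ≠ 0 := mul_ne_zero hu.1 hv.1
  have h5 : f * g + h ≠ 0 ∧ (f * g + h).totalDegree = f.totalDegree + g.totalDegree := by
    rcases h1 with h1 | h1
    · rw [h1, add_zero]
      exact ⟨h4, h3⟩
    · rw [← h3] at h1
      refine ⟨fun h6 => ?_, ?_⟩
      · have h7 : h = -(f * g) := eq_neg_of_add_eq_zero_right h6
        rw [h7, totalDegree_neg] at h1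
        exact lt_irrefl _ h1
      · rw [totalDegree_add_eq_left_of_totalDegree_lt h1, h3]
  refine ⟨h5.1, ?_⟩
  rw [h5.2]
  push_cast
  have := hu.2
  have := hv.2
  omega

end DGSaux

/-- DGS. -/
theorem t_dgs (hPBR : PBRStmt) (hPRD : PRDStmt) : DGSStmt := by
  intro κ L _ _ _ n b
  exact ⟨⟨DGSaux.Fd b, DGSaux.Fd_mono b, DGSaux.Fd_mul hPRD b, DGSaux.Fd_one b,
    DGSaux.Fd_str hPBR hPRD b⟩, DGSaux.Fd_iff hPBR b⟩

end Pool.MFL
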