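import Pool.Agent.H51.MFL.S

/-!
# Board mfl, DGX: the extension of a degree function to polynomials
-/

set_option autoImplicit false

namespace Pool.MFL

namespace DGXaux

variable {U : Type} [Ring U]

/-- The filtration of the polynomials: the variable has degree `-n`. -/
def Fx (δ : Deg U) (n : ℕ) (d : ℤ) : AddSubgroup (Polynomial U) where
  carrier := {u | ∀ i : ℕ, u.coeff i ∈ δ.F (d + n * i)}
  add_mem' := by
    intro u v hu hv i
    rw [Polynomial.coeff_add]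
    exact (δ.F _).add_mem (hu i) (hv i)
  zero_mem' := by
    intro i
    rw [Polynomial.coeff_zero]
    exact (δ.F _).zero_mem
  neg_mem' := by
    intro u hu i
    rw [Polynomial.coeff_neg]
    exact (δ.F _).neg_mem (hu i)

theorem mem_Fx (δ : Deg U) (n : ℕ) (d : ℤ) (u : Polynomial U) :
    u ∈ Fx δ n d ↔ ∀ i : ℕ, u.coeff i ∈ δ.F (d + n * i) := Iff.rfl

theorem Fx_mono (δ : Deg U) (n : ℕ) (a b : ℤ) (h : a ≤ b) : Fx δ n a ≤ Fx δ n b := by
  intro u hu i
  exact δ.mono (a + n * i) (b + n * i) (by linarith) (hu i)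

theorem mul_mem (δ : Deg U) (n : ℕ) (a b : ℤ) (u v : U) (i j k : ℕ) (hij : i + j = k)
    (hu : u ∈ δ.F (a + n * i)) (hv : v ∈ δ.F (b + n * j)) : u * v ∈ δ.F (a + b + n * k) := by
  have h := δ.mul _ _ _ _ hu hv
  have e : a + n * i + (b + n * j) = a + b + n * k := by
    rw [← hij]
    push_cast
    ring
  rw [e] at h
  exact h

theorem Fx_mul (δ : Deg U) (n : ℕ) (a b : ℤ) (u v : Polynomial U) (hu : u ∈ Fx δ n a)
    (hv : v ∈ Fx δ n b) : u * v ∈ Fx δ n (a + b) := by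
  intro k
  rw [Polynomial.coeff_mul]
  refine (δ.F _).sum_mem ?_
  rintro ⟨i, j⟩ hij
  rw [Finset.HasAntidiagonal.mem_antidiagonal] at hij
  exact mul_mem δ n a b _ _ i j k hij (hu i) (hv j)

theorem Fx_one (δ : Deg U) (n : ℕ) : (1 : Polynomial U) ∈ Fx δ n 0 := by
  intro i
  rw [Polynomial.coeff_one]
  by_cases h : i = 0
  · rw [if_pos h]
    exact δ.mono 0 _ (by positivity) δ.one
  · rw [if_neg h]
    exact (δ.F _).zero_mem

/-- The greatest level at which `u` is missing, and the first coefficient which is missing. -/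
theorem gr (δ : Deg U) (h : ∀ u, ∃ d, u ∈ δ.F d) (n : ℕ) (a : ℤ) (u : Polynomial U)
    (hu : u ∉ Fx δ n a) :
    ∃ a' : ℤ, a ≤ a' ∧ u ∈ Fx δ n (a' + 1) ∧
      ∃ i₀ : ℕ, u.coeff i₀ ∉ δ.F (a' + n * i₀) ∧ ∀ i < i₀, u.coeff i ∈ δ.F (a' + n * i) := by
  classical
  choose D hD using h
  have hb : ∃ B : ℤ, ∀ z : ℤ, u ∉ Fx δ n z → z ≤ B := by
    refine ⟨∑ i ∈ u.support, |D (u.coeff i)|, fun z hz => ?_⟩
    by_contra hc
    push Not at hc
    refine hz fun i => ?_
    by_cases hi : i ∈ u.support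
    · refine δ.mono (D (u.coeff i)) _ ?_ (hD _)
      have h1 : |D (u.coeff i)| ≤ ∑ i ∈ u.support, |D (u.coeff i)| :=
        Finset.single_le_sum (f := fun i => |D (u.coeff i)|) (fun i _ => abs_nonneg _) hi
      have h2 : D (u.coeff i) ≤ |D (u.coeff i)| := le_abs_self _
      have h3 : (0 : ℤ) ≤ n * i := by positivity
      linarith
    · rw [Polynomial.notMem_support_iff.1 hi]
      exact (δ.F _).zero_mem
  obtain ⟨a', h1, h2⟩ := Int.exists_greatest_of_bdd (P := fun z => u ∉ Fx δ n z) hb ⟨a, hu⟩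
  refine ⟨a', h2 a hu, ?_, ?_⟩
  · by_contra hc
    have := h2 (a' + 1) hc
    linarith
  · have h3 : ∃ i : ℕ, u.coeff i ∉ δ.F (a' + n * i) := by
      by_contra hc
      push Not at hc
      exact h1 hc
    refine ⟨Nat.find h3, Nat.find_spec h3, fun i hi => ?_⟩
    have h4 := Nat.find_min h3 hi
    push Not at h4
    exact h4

theorem Fx_str (δ : Deg U) (h : ∀ u, ∃ d, u ∈ δ.F d) (n : ℕ) (a b : ℤ) (u v : Polynomial U)
    (hu : u ∉ Fx δ n a) (hv : v ∉ Fx δ n b) : u * v ∉ Fx δ n (a + b + 1) := by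
  obtain ⟨a', ha, hua, i₀, hi, hi'⟩ := gr δ h n a u hu
  obtain ⟨b', hb, hvb, j₀, hj, hj'⟩ := gr δ h n b v hv
  intro hc
  have h0 := Fx_mono δ n (a + b + 1) (a' + b' + 1) (by linarith) hc (i₀ + j₀)
  rw [Polynomial.coeff_mul] at h0
  have hm : (i₀, j₀) ∈ Finset.HasAntidiagonal.antidiagonal (i₀ + j₀) := Finset.HasAntidiagonal.mem_antidiagonal.2 rfl
  rw [← Finset.add_sum_erase _ _ hm] at h0
  have h1 : ∑ x ∈ (Finset.HasAntidiagonal.antidiagonal (i₀ + j₀)).erase (i₀, j₀), u.coeff x.1 * v.coeff x.2 ∈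
      δ.F (a' + b' + 1 + n * ((i₀ + j₀ : ℕ) : ℤ)) := by
    refine (δ.F _).sum_mem ?_
    rintro ⟨i, j⟩ hij
    rw [Finset.mem_erase, Finset.HasAntidiagonal.mem_antidiagonal] at hij
    obtain ⟨hne, hij⟩ := hij
    dsimp only at hij ⊢
    rcases lt_trichotomy i i₀ with hlt | heq | hgt
    · have := mul_mem δ n a' (b' + 1) _ _ i j _ hij (hi' i hlt) (hvb j)
      rw [← add_assoc] at this
      exact this
    · exfalso
      apply hne
      rw [heq] at hij ⊢
      rw [Nat.add_left_cancel hij]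
    · have hjl : j < j₀ := by omega
      have := mul_mem δ n (a' + 1) b' _ _ i j _ hij (hua i) (hj' j hjl)
      have e : a' + 1 + b' = a' + b' + 1 := by ring
      rw [e] at this
      exact this
  have h2 := ((δ.F _).add_mem_cancel_right h1).1 h0
  have h3 := δ.str _ _ _ _ hi hj
  apply h3
  have e : a' + n * i₀ + (b' + n * j₀) + 1 = a' + b' + 1 + n * ((i₀ + j₀ : ℕ) : ℤ) := by
    push_cast
    ring
  rw [e]
  exact h2

end DGXaux

/-- DGX. -/
theorem t_dgx : DGXStmt := by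
  intro U _ δ h1 _ n
  exact ⟨⟨DGXaux.Fx δ n, DGXaux.Fx_mono δ n, DGXaux.Fx_mul δ n, DGXaux.Fx_one δ n,
    DGXaux.Fx_str δ h1 n⟩, fun d u => Iff.rfl⟩

end Pool.MFL
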