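import Pool.Agent.H51.MFL.S

/-!
# MFL: reduction modulo large primes
-/

set_option autoImplicit false

open Module MvPolynomial

namespace Pool.MFL

theorem jacobson_int : IsJacobsonRing ℤ := by
  rw [isJacobsonRing_iff_prime_eq]
  intro P hP
  by_cases h : P = ⊥
  · subst h
    rw [eq_bot_iff]
    intro x hx
    rw [Ideal.mem_jacobson_bot] at hx
    have := hx x
    rw [Int.isUnit_iff] at this
    rw [Ideal.mem_bot]
    rcases this with h | h
    · have : x * x = 0 := by linarith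
      exact mul_self_eq_zero.mp this
    · nlinarith [mul_self_nonneg x]
  · have : P.IsMaximal := hP.isMaximal h
    exact Ideal.jacobson_eq_self_of_isMaximal

theorem t_mdp : MDPStmt := by
  intro S B c hc
  have hfg : (Algebra.adjoin ℤ (S : Set ℂ)).FG := Subalgebra.fg_def.mpr ⟨S, S.finite_toSet, rfl⟩
  have hft : Algebra.FiniteType ℤ (Algebra.adjoin ℤ (S : Set ℂ)) :=
    (Subalgebra.fg_iff_finiteType _).mp hfg
  have hjz := jacobson_int
  have hjA : IsJacobsonRing (Algebra.adjoin ℤ (S : Set ℂ)) :=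
    isJacobsonRing_of_finiteType (A := ℤ)
  have hg : c * ((B.factorial : ℕ) : Algebra.adjoin ℤ (S : Set ℂ)) ≠ 0 := by
    refine mul_ne_zero hc ?_
    intro h
    have h1 := congrArg (fun z : Algebra.adjoin ℤ (S : Set ℂ) => (z : ℂ)) h
    simp only [ZeroMemClass.coe_zero] at h1
    have h2 : ((((B.factorial : ℕ) : Algebra.adjoin ℤ (S : Set ℂ))) : ℂ) = (B.factorial : ℂ) := by
      simp
    rw [h2] at h1
    exact (Nat.cast_ne_zero.2 (Nat.factorial_ne_zero B)) h1
  have hjac : (⊥ : Ideal (Algebra.adjoin ℤ (S : Set ℂ))).jacobson = ⊥ :=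
    IsJacobsonRing.out inferInstance (Ideal.isPrime_bot.isRadical)
  have hnot : c * ((B.factorial : ℕ) : Algebra.adjoin ℤ (S : Set ℂ)) ∉
      (⊥ : Ideal (Algebra.adjoin ℤ (S : Set ℂ))).jacobson := by
    rw [hjac, Ideal.mem_bot]
    exact hg
  rw [Ideal.jacobson, Ideal.mem_sInf] at hnot
  push Not at hnot
  obtain ⟨M, ⟨_, hM⟩, hgM⟩ := hnot
  let _ : Field (Algebra.adjoin ℤ (S : Set ℂ) ⧸ M) := Ideal.Quotient.field M
  have hft2 : Algebra.FiniteType ℤ (Algebra.adjoin ℤ (S : Set ℂ) ⧸ M) :=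
    Algebra.FiniteType.trans (R := ℤ) (S := Algebra.adjoin ℤ (S : Set ℂ)) inferInstance
      inferInstance
  have hfin : Module.Finite ℤ (Algebra.adjoin ℤ (S : Set ℂ) ⧸ M) :=
    finite_of_finite_type_of_isJacobsonRing ℤ (Algebra.adjoin ℤ (S : Set ℂ) ⧸ M)
  obtain ⟨p, hp⟩ := CharP.exists (Algebra.adjoin ℤ (S : Set ℂ) ⧸ M)
  have hp0 : p ≠ 0 := by
    intro h
    subst h
    have : CharZero (Algebra.adjoin ℤ (S : Set ℂ) ⧸ M) := CharP.charP_to_charZero _
    have hinj : Function.Injective (algebraMap ℤ (Algebra.adjoin ℤ (S : Set ℂ) ⧸ M)) := by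
      intro a b hab
      simpa using hab
    exact Int.not_isField (isField_of_isIntegral_of_isField hinj (Field.toIsField _))
  have hpp : p.Prime :=
    (CharP.char_is_prime_or_zero (Algebra.adjoin ℤ (S : Set ℂ) ⧸ M) p).resolve_right hp0
  refine ⟨Algebra.adjoin ℤ (S : Set ℂ) ⧸ M, inferInstance, p, ⟨hpp⟩, hp, Ideal.Quotient.mk M,
    ?_, ?_⟩
  · by_contra hle
    push Not at hle
    apply hgM
    refine Ideal.mul_mem_left _ _ ?_
    rw [← Ideal.Quotient.eq_zero_iff_mem, map_natCast, CharP.cast_eq_zero_iff _ p]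
    exact hpp.dvd_factorial.2 hle
  · intro h
    apply hgM
    exact Ideal.mul_mem_right _ _ (Ideal.Quotient.eq_zero_iff_mem.1 h)

end Pool.MFL
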