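import Pool.Agent.H51.MFL.S

/-!
# MFL: minors
-/

set_option autoImplicit false

open Module MvPolynomial

namespace Pool.MFL

namespace MinAux

variable {S τ J : Type} [CommRing S] (N : τ → J → S)

/-- The submatrix. -/
def mx {m : ℕ} (r : Fin m → τ) (a : Fin m → J) : Matrix (Fin m) (Fin m) S :=
  Matrix.of fun i k => N (r i) (a k)

/-- There is a nonzero minor of size `m`. -/
def Good (m : ℕ) : Prop := ∃ (r : Fin m → τ) (a : Fin m → J), (mx N r a).det ≠ 0

theorem good_le [Fintype τ] {m : ℕ} (h : Good N m) : m ≤ Fintype.card τ := by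
  classical
  obtain ⟨r, a, hd⟩ := h
  have hinj : Function.Injective r := by
    intro i j hij
    by_contra hne
    apply hd
    refine Matrix.det_zero_of_row_eq hne ?_
    funext k
    simp [mx, hij]
  simpa using Fintype.card_le_of_injective r hinj

theorem det_upd {m : ℕ} (r : Fin m → τ) (a : Fin m → J) (l : τ) (k : Fin m) :
    ∑ j, N l (a j) * (mx N r a).adjugate j k = (mx N (Function.update r k l) a).det := by
  classical
  have h1 : mx N (Function.update r k l) a = (mx N r a).updateRow k (fun j => N l (a j)) := by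
    ext i j
    rw [Matrix.updateRow_apply]
    simp only [mx, Matrix.of_apply, Function.update_apply]
    split_ifs <;> rfl
  rw [h1, Matrix.det_eq_sum_mul_adjugate_row _ k]
  refine Finset.sum_congr rfl fun j _ => ?_
  rw [Matrix.updateRow_self, Matrix.adjugate_apply, Matrix.adjugate_apply, Matrix.updateRow_idem]

theorem border [IsDomain S] {m : ℕ} (r : Fin m → τ) (a : Fin m → J)
    (hd : (mx N r a).det ≠ 0) (hmax : ¬ Good N (m + 1)) (l : τ) (j : J) :
    (mx N r a).det * N l j =
      ∑ i, ∑ k, N l (a i) * (mx N r a).adjugate i k * N (r k) j := by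
  classical
  set M := mx N r a with hM
  set x : Matrix Unit (Fin m) S := (Matrix.of fun (_ : Unit) i => N l (a i)) * M.adjugate with hx
  set col : Matrix (Fin m) Unit S := Matrix.of fun i (_ : Unit) => N (r i) j with hcol
  set row : Matrix Unit (Fin m) S := Matrix.of fun (_ : Unit) i => N l (a i) with hrow
  set c : Matrix Unit Unit S := Matrix.of fun (_ _ : Unit) => N l j with hc
  set B := Matrix.fromBlocks M col row c with hB
  have hB0 : B.det = 0 := by
    by_contra hne
    apply hmax
    let e : Fin (m + 1) ≃ Fin m ⊕ Unit := Fintype.equivOfCardEq (by simp)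
    refine ⟨fun i => Sum.elim r (fun _ => l) (e i), fun i => Sum.elim a (fun _ => j) (e i), ?_⟩
    have h1 : mx N (fun i => Sum.elim r (fun _ => l) (e i))
        (fun i => Sum.elim a (fun _ => j) (e i)) = B.submatrix e e := by
      ext i k
      simp only [mx, Matrix.of_apply, Matrix.submatrix_apply, hB]
      rcases e i with u | u <;> rcases e k with v | v <;>
        simp [hM, mx, hcol, hrow, hc]
    rw [h1, Matrix.det_submatrix_equiv_self]
    exact hne
  have hE : Matrix.fromBlocks (1 : Matrix (Fin m) (Fin m) S) 0 (-x) (M.det • 1) * B =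
      Matrix.fromBlocks M col 0 (M.det • c - x * col) := by
    rw [hB, Matrix.fromBlocks_multiply]
    have e1 : -x * M + (M.det • (1 : Matrix Unit Unit S)) * row = 0 := by
      rw [hx, Matrix.neg_mul, Matrix.mul_assoc, Matrix.adjugate_mul, Matrix.mul_smul, Matrix.mul_one,
        Matrix.smul_mul, Matrix.one_mul, neg_add_cancel]
    rw [e1]
    simp only [Matrix.one_mul, Matrix.zero_mul, add_zero, Matrix.neg_mul, Matrix.smul_mul]
    congr 1
    abel
  have h2 := congrArg Matrix.det hE
  rw [Matrix.det_mul, hB0, mul_zero, Matrix.det_fromBlocks_zero₂₁] at h2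
  have h3 : (M.det • c - x * col).det = M.det * N l j - ∑ k, (∑ i, N l (a i) * M.adjugate i k) *
      N (r k) j := by
    rw [Matrix.det_unique]
    simp [hx, hc, hcol, Matrix.mul_apply, hrow]
  rw [h3] at h2
  have h4 : M.det * N l j - ∑ k, (∑ i, N l (a i) * M.adjugate i k) * N (r k) j = 0 := by
    rcases mul_eq_zero.1 h2.symm with h | h
    · exact absurd h hd
    · exact h
  rw [sub_eq_zero.1 h4, Finset.sum_comm]
  refine Finset.sum_congr rfl fun k _ => ?_
  rw [Finset.sum_mul]

end MinAux

open MinAux

theorem t_min : MINStmt := by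
  classical
  intro S τ J _ _ _ _ N o
  obtain ⟨m, hm1, hm2⟩ : ∃ m, Good N m ∧ ¬ Good N (m + 1) := by
    have h0 : Good N 0 := ⟨Fin.elim0, Fin.elim0, by simp⟩
    refine ⟨Nat.findGreatest (Good N) (Fintype.card τ),
      Nat.findGreatest_spec (Nat.zero_le _) h0, fun h => ?_⟩
    have h1 := good_le N h
    have h2 := Nat.le_findGreatest h1 h
    omega
  obtain ⟨r₀, a, hd₀⟩ := hm1
  obtain ⟨r, hr, hmin⟩ := Finset.exists_min_image
    (Finset.univ.filter fun r : Fin m → τ => (mx N r a).det ≠ 0) (fun r => o (mx N r a).det)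
    ⟨r₀, by simpa using hd₀⟩
  have hd : (mx N r a).det ≠ 0 := (Finset.mem_filter.1 hr).2
  refine ⟨m, r, a, (mx N r a).det, (mx N r a).adjugate, good_le N ⟨r, a, hd⟩, hd, rfl, rfl,
    fun l j => border N r a hd hm2 l j, fun l k => ?_⟩
  rw [det_upd]
  by_cases h : (mx N (Function.update r k l) a).det = 0
  · exact Or.inl h
  · exact Or.inr (hmin _ (by simpa using h))

end Pool.MFL
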